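import Mathlib

/-!
The Thomas-Fermi-von Weizsaecker functional with the exponent 2: the limit functional.
-/

set_option autoImplicit false

open MeasureTheory Set Filter Topology

namespace Pool.Agent.X96.TW

abbrev R3 := EuclideanSpace ℝ (Fin 3)

/-- The minimiser of the limit functional. -/
noncomputable def rho0 (x : R3) : ℝ := max (1 / ‖x‖ - 1) 0

theorem rho0_nonneg (x : R3) : 0 ≤ rho0 x := le_max_right _ _

theorem rho0_out {x : R3} (hx : 1 ≤ ‖x‖) : rho0 x = 0 := by
  unfold rho0
  apply max_eq_right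
  rw [sub_nonpos, div_le_one (by linarith)]
  exact hx

theorem rho0_in {x : R3} (h0 : 0 < ‖x‖) (hx : ‖x‖ ≤ 1) : rho0 x = 1 / ‖x‖ - 1 := by
  unfold rho0
  apply max_eq_left
  rw [sub_nonneg, le_div_iff₀ h0]
  linarith

theorem dim3 : Module.finrank ℝ R3 = 3 := by simp

/-- radial functions -/
theorem int_rad {f : ℝ → ℝ} (hf : Measurable f) {C R : ℝ}
    (hb : ∀ r : ℝ, 0 < r → |r ^ 2 * f r| ≤ (Iic R).indicator (fun _ => C) r) :
    Integrable (fun x : R3 => f ‖x‖) := by
  rw [integrable_fun_norm_addHaar (μ := (volume : Measure R3)) (f := f), dim3]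
  have h1 : IntegrableOn (fun r : ℝ => (Iic R).indicator (fun _ => C) r) (Ioi 0) := by
    rw [IntegrableOn, integrable_indicator_iff measurableSet_Iic, IntegrableOn,
      Measure.restrict_restrict measurableSet_Iic]
    have : Iic R ∩ Ioi (0 : ℝ) = Ioc 0 R := by
      ext y
      simp [and_comm]
    rw [this]
    exact integrableOn_const (by simp)
  refine Integrable.mono' h1 ?_ ?_
  · exact ((measurable_id.pow_const 2).smul hf).aestronglyMeasurable
  · filter_upwards [ae_restrict_mem measurableSet_Ioi] with r hr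
    have := hb r hr
    simpa using this

theorem int_rho0 : Integrable rho0 := by
  have h := int_rad (f := fun r => max (1 / r - 1) 0) (C := 1) (R := 1) (by fun_prop) ?_
  · exact h
  · intro r hr
    by_cases h1 : r ≤ 1
    · rw [indicator_of_mem (by exact h1)]
      have h2 : max (1 / r - 1) 0 = 1 / r - 1 := by
        apply max_eq_left
        rw [sub_nonneg, le_div_iff₀ hr]
        linarith
      rw [h2]
      have h3 : r ^ 2 * (1 / r - 1) = r * (1 - r) := by
        field_simp
      rw [h3, abs_of_nonneg (mul_nonneg hr.le (by linarith))]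
      nlinarith
    · push Not at h1
      rw [indicator_of_notMem (by simpa using h1)]
      have h2 : max (1 / r - 1) 0 = 0 := by
        apply max_eq_right
        rw [sub_nonpos, div_le_one hr]
        exact h1.le
      rw [h2]
      simp

theorem int_rho0_sq : Integrable (fun x => rho0 x ^ 2) := by
  have h := int_rad (f := fun r => max (1 / r - 1) 0 ^ 2) (C := 1) (R := 1) (by fun_prop) ?_
  · exact h
  · intro r hr
    by_cases h1 : r ≤ 1
    · rw [indicator_of_mem (by exact h1)]
      have h2 : max (1 / r - 1) 0 = 1 / r - 1 := by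
        apply max_eq_left
        rw [sub_nonneg, le_div_iff₀ hr]
        linarith
      rw [h2]
      have h3 : r ^ 2 * (1 / r - 1) ^ 2 = (1 - r) ^ 2 := by
        field_simp
      rw [h3, abs_of_nonneg (sq_nonneg _)]
      nlinarith
    · push Not at h1
      rw [indicator_of_notMem (by simpa using h1)]
      have h2 : max (1 / r - 1) 0 = 0 := by
        apply max_eq_right
        rw [sub_nonpos, div_le_one hr]
        exact h1.le
      rw [h2]
      simp

/-- the square of the potential in the unit ball -/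
noncomputable def wsq (x : R3) : ℝ := (Iic (1 : ℝ)).indicator (fun r => 1 / r ^ 2) ‖x‖

theorem int_wsq : Integrable wsq := by
  refine int_rad (f := (Iic (1 : ℝ)).indicator (fun r => 1 / r ^ 2)) (C := 1) (R := 1)
    ((by fun_prop : Measurable fun r : ℝ => 1 / r ^ 2).indicator measurableSet_Iic) ?_
  intro r hr
  by_cases h1 : r ≤ 1
  · rw [indicator_of_mem (by exact h1), indicator_of_mem (by exact h1)]
    have h3 : r ^ 2 * (1 / r ^ 2) = 1 := by
      field_simp
    rw [h3]
    simp
  · rw [indicator_of_notMem (by exact h1), indicator_of_notMem (by exact h1)]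
    simp

/-- the potential in the ball of radius two -/
noncomputable def pot (x : R3) : ℝ := (Iic (2 : ℝ)).indicator (fun r => 1 / r) ‖x‖

theorem int_pot : Integrable pot := by
  refine int_rad (f := (Iic (2 : ℝ)).indicator (fun r => 1 / r)) (C := 2) (R := 2)
    ((by fun_prop : Measurable fun r : ℝ => 1 / r).indicator measurableSet_Iic) ?_
  intro r hr
  by_cases h1 : r ≤ 2
  · rw [indicator_of_mem (by exact h1), indicator_of_mem (by exact h1)]
    have h3 : r ^ 2 * (1 / r) = r := by
      field_simp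
    rw [h3, abs_of_pos hr]
    exact h1
  · rw [indicator_of_notMem (by exact h1), indicator_of_notMem (by exact h1)]
    simp

theorem ae_pos : ∀ᵐ x : R3, 0 < ‖x‖ := by
  have : ∀ᵐ x : R3, x ≠ 0 := by
    have := (volume : Measure R3).ae_ne (0 : R3)
    exact this
  filter_upwards [this] with x hx
  exact norm_pos_iff.mpr hx

theorem int_div {ρ : R3 → ℝ} (h0 : ∀ᵐ x, 0 ≤ ρ x) (h1 : Integrable ρ)
    (h2 : Integrable (fun x => ρ x ^ 2)) : Integrable (fun x => ρ x / ‖x‖) := by
  refine Integrable.mono' ((h1.add (h2.add int_wsq))) ?_ ?_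
  · exact h1.aestronglyMeasurable.mul
      (by
        have : Measurable fun x : R3 => (‖x‖)⁻¹ := by fun_prop
        exact this.aestronglyMeasurable)
  · filter_upwards [h0, ae_pos] with x hx hx0
    have e1 : 0 ≤ ρ x / ‖x‖ := div_nonneg hx hx0.le
    rw [Real.norm_eq_abs, abs_of_nonneg e1]
    show ρ x / ‖x‖ ≤ ρ x + (ρ x ^ 2 + wsq x)
    by_cases h3 : ‖x‖ ≤ 1
    · have e2 : wsq x = 1 / ‖x‖ ^ 2 := by
        unfold wsq
        rw [indicator_of_mem (by exact h3)]
      rw [e2]
      have e3 : ρ x / ‖x‖ = ρ x * (1 / ‖x‖) := by ring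
      have e4 : 1 / ‖x‖ ^ 2 = (1 / ‖x‖) ^ 2 := by ring
      rw [e3, e4]
      nlinarith [sq_nonneg (ρ x - 1 / ‖x‖), sq_nonneg (ρ x), sq_nonneg (1 / ‖x‖)]
    · push Not at h3
      have e2 : 0 ≤ wsq x := by
        unfold wsq
        exact indicator_nonneg (fun r _ => by positivity) _
      have e3 : ρ x / ‖x‖ ≤ ρ x := div_le_self hx h3.le
      nlinarith [sq_nonneg (ρ x)]

/-- the limit functional -/
noncomputable def E0 (ρ : R3 → ℝ) : ℝ := (1 / 2) * (∫ x, ρ x ^ 2) - ∫ x, ρ x / ‖x‖

theorem int_sub_sq {ρ : R3 → ℝ} (h0 : ∀ᵐ x, 0 ≤ ρ x) (h1 : Integrable ρ)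
    (h2 : Integrable (fun x => ρ x ^ 2)) : Integrable (fun x => (ρ x - rho0 x) ^ 2) := by
  refine Integrable.mono' ((h2.add int_rho0_sq)) ?_ ?_
  · exact (h1.aestronglyMeasurable.sub int_rho0.aestronglyMeasurable).pow 2
  · filter_upwards [h0] with x hx
    rw [Real.norm_eq_abs, abs_of_nonneg (sq_nonneg _)]
    show (ρ x - rho0 x) ^ 2 ≤ ρ x ^ 2 + rho0 x ^ 2
    nlinarith [mul_nonneg hx (rho0_nonneg x)]

/-- the limit functional controls the distance from its minimiser -/
theorem core {ρ : R3 → ℝ} (h0 : ∀ᵐ x, 0 ≤ ρ x) (h1 : Integrable ρ)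
    (h2 : Integrable (fun x => ρ x ^ 2)) (hm : ∫ x, ρ x ≤ ∫ x, rho0 x) :
    (1 / 2) * ∫ x, (ρ x - rho0 x) ^ 2 ≤ E0 ρ - E0 rho0 := by
  have i1 := int_div h0 h1 h2
  have i2 := int_div (ρ := rho0) (Eventually.of_forall rho0_nonneg) int_rho0 int_rho0_sq
  have i3 := int_sub_sq h0 h1 h2
  have key : ∫ x, (1 / 2 : ℝ) * (ρ x - rho0 x) ^ 2
      ≤ ∫ x, (((1 / 2 : ℝ) * ρ x ^ 2 - ρ x / ‖x‖) - ((1 / 2 : ℝ) * rho0 x ^ 2 - rho0 x / ‖x‖)
        + (ρ x - rho0 x)) := by
    refine integral_mono_ae (i3.const_mul _) ?_ ?_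
    · exact ((((h2.const_mul _).sub i1).sub ((int_rho0_sq.const_mul _).sub i2)).add
        (h1.sub int_rho0))
    · filter_upwards [h0, ae_pos] with x hx hx0
      rcases le_or_gt ‖x‖ 1 with h3 | h3
      · rw [rho0_in hx0 h3]
        apply le_of_eq
        ring
      · rw [rho0_out h3.le]
        have e3 : ρ x / ‖x‖ ≤ ρ x := div_le_self hx h3.le
        have e4 : (0 : ℝ) / ‖x‖ = 0 := by simp
        rw [e4]
        linarith
  have j1 : Integrable (fun x => (1 / 2 : ℝ) * ρ x ^ 2 - ρ x / ‖x‖) := (h2.const_mul _).sub i1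
  have j2 : Integrable (fun x => (1 / 2 : ℝ) * rho0 x ^ 2 - rho0 x / ‖x‖) :=
    (int_rho0_sq.const_mul _).sub i2
  have j3 : Integrable (fun x => ρ x - rho0 x) := h1.sub int_rho0
  have j4 : Integrable (fun x => ((1 / 2 : ℝ) * ρ x ^ 2 - ρ x / ‖x‖)
      - ((1 / 2 : ℝ) * rho0 x ^ 2 - rho0 x / ‖x‖)) := j1.sub j2
  have k1 := integral_add j4 j3
  have k2 := integral_sub j1 j2
  have k3 := integral_sub (h2.const_mul (1 / 2 : ℝ)) i1
  have k4 := integral_sub (int_rho0_sq.const_mul (1 / 2 : ℝ)) i2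
  have k5 := integral_sub h1 int_rho0
  rw [integral_const_mul] at key k3 k4
  rw [k1, k2, k3, k4, k5] at key
  unfold E0
  linarith

end Pool.Agent.X96.TW
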