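import Pool.Agent.X96.TW.Trial

/-!
Densities near `rho0` do not have a convex root.
-/

set_option autoImplicit false

open MeasureTheory Set Filter Topology
open scoped ContDiff

namespace Pool.Agent.X96.TW

/-- a spherical shell -/
def shell (a b : ℝ) : Set R3 := {x | a < ‖x‖ ∧ ‖x‖ < b}

theorem shell_open (a b : ℝ) : IsOpen (shell a b) := by
  have : shell a b = (fun x : R3 => ‖x‖) ⁻¹' (Ioo a b) := rfl
  rw [this]
  exact isOpen_Ioo.preimage continuous_norm

theorem shell_pos {a b : ℝ} (ha : 0 < a) (hab : a < b) : 0 < (volume (shell a b)).toReal := by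
  apply ENNReal.toReal_pos
  · have hne : (shell a b).Nonempty := by
      refine ⟨EuclideanSpace.single 0 ((a + b) / 2), ?_⟩
      have : ‖(EuclideanSpace.single 0 ((a + b) / 2) : R3)‖ = (a + b) / 2 := by
        rw [EuclideanSpace.norm_single, Real.norm_eq_abs, abs_of_pos (by linarith)]
      constructor
      · rw [this]; linarith
      · rw [this]; linarith
    exact ((shell_open a b).measure_pos volume hne).ne'
  · have h1 : shell a b ⊆ Metric.ball (0 : R3) b := by
      intro x hx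
      rw [Metric.mem_ball, dist_zero_right]
      exact hx.2
    exact ((measure_mono h1).trans_lt measure_ball_lt_top).ne

/-- a point of the shell with a small difference -/
theorem pick {f : R3 → ℝ} (hf : Integrable (fun x => f x ^ 2)) {a b η : ℝ}
    (ha : 0 < a) (hab : a < b) (hη : 0 < η)
    (h : ∫ x, f x ^ 2 < η ^ 2 * (volume (shell a b)).toReal) {P : R3 → Prop} (hP : ∀ᵐ x, P x) :
    ∃ x ∈ shell a b, P x ∧ |f x| ≤ η := by
  by_contra hcon
  push Not at hcon
  have hm : MeasurableSet (shell a b) := (shell_open a b).measurableSet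
  have h1 : η ^ 2 * (volume (shell a b)).toReal = ∫ x in shell a b, η ^ 2 := by
    rw [setIntegral_const, smul_eq_mul, mul_comm]
    rfl
  have h2 : ∫ x in shell a b, η ^ 2 ≤ ∫ x in shell a b, f x ^ 2 := by
    refine integral_mono_ae ?_ hf.integrableOn ?_
    · refine integrableOn_const ?_
      intro h3
      have h4 := shell_pos ha hab
      rw [h3] at h4
      simp at h4
    · filter_upwards [ae_restrict_mem hm, ae_restrict_of_ae hP] with x hx hPx
      have h3 := hcon x hx hPx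
      have h4 : η ^ 2 ≤ |f x| ^ 2 := pow_le_pow_left₀ hη.le h3.le 2
      rwa [sq_abs] at h4
  have h3 : ∫ x in shell a b, f x ^ 2 ≤ ∫ x, f x ^ 2 :=
    setIntegral_le_integral hf (Eventually.of_forall fun x => sq_nonneg _)
  linarith

/-- the critical distance -/
noncomputable def cc : ℝ := (1 / 1000) ^ 2 * min ((volume (shell (1 / 2) (51 / 100))).toReal)
  (min ((volume (shell (9 / 10) (91 / 100))).toReal) ((volume (shell 1 (101 / 100))).toReal))

theorem cc_pos : 0 < cc := by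
  unfold cc
  have h1 := shell_pos (a := 1 / 2) (b := 51 / 100) (by norm_num) (by norm_num)
  have h2 := shell_pos (a := 9 / 10) (b := 91 / 100) (by norm_num) (by norm_num)
  have h3 := shell_pos (a := 1) (b := 101 / 100) (by norm_num) (by norm_num)
  have h4 := lt_min h1 (lt_min h2 h3)
  positivity

/-- densities at a distance less than `cc` from `rho0` do not have a convex root -/
theorem not_convex {ρ : R3 → ℝ} {ψ : ℝ → ℝ} (h0 : ∀ᵐ x, 0 ≤ ρ x) (h1 : Integrable ρ)
    (h2 : Integrable (fun x => ρ x ^ 2)) (hd : ∫ x, (ρ x - rho0 x) ^ 2 < cc)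
    (hψ : ∀ᵐ x, √(ρ x) = ψ ‖x‖) : ¬ ConvexOn ℝ (Ioi 0) ψ := by
  intro hcv
  have i := int_sub_sq h0 h1 h2
  have hP : ∀ᵐ x, 0 ≤ ρ x ∧ √(ρ x) = ψ ‖x‖ := h0.and hψ
  have hη : (0 : ℝ) < 1 / 1000 := by norm_num
  have g1 : (1 / 1000 : ℝ) ^ 2 * min ((volume (shell (1 / 2) (51 / 100))).toReal)
      (min ((volume (shell (9 / 10) (91 / 100))).toReal) ((volume (shell 1 (101 / 100))).toReal))
      ≤ (1 / 1000 : ℝ) ^ 2 * (volume (shell (1 / 2) (51 / 100))).toReal :=
    mul_le_mul_of_nonneg_left (min_le_left _ _) (by positivity)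
  have g2 : (1 / 1000 : ℝ) ^ 2 * min ((volume (shell (1 / 2) (51 / 100))).toReal)
      (min ((volume (shell (9 / 10) (91 / 100))).toReal) ((volume (shell 1 (101 / 100))).toReal))
      ≤ (1 / 1000 : ℝ) ^ 2 * (volume (shell (9 / 10) (91 / 100))).toReal :=
    mul_le_mul_of_nonneg_left ((min_le_right _ _).trans (min_le_left _ _)) (by positivity)
  have g3 : (1 / 1000 : ℝ) ^ 2 * min ((volume (shell (1 / 2) (51 / 100))).toReal)
      (min ((volume (shell (9 / 10) (91 / 100))).toReal) ((volume (shell 1 (101 / 100))).toReal))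
      ≤ (1 / 1000 : ℝ) ^ 2 * (volume (shell 1 (101 / 100))).toReal :=
    mul_le_mul_of_nonneg_left ((min_le_right _ _).trans (min_le_right _ _)) (by positivity)
  unfold cc at hd
  obtain ⟨x, hx, ⟨hx0, hx1⟩, hx2⟩ := pick i (by norm_num) (by norm_num) hη (hd.trans_le g1) hP
  obtain ⟨y, hy, ⟨hy0, hy1⟩, hy2⟩ := pick i (by norm_num) (by norm_num) hη (hd.trans_le g2) hP
  obtain ⟨z, hz, ⟨hz0, hz1⟩, hz2⟩ := pick i (by norm_num) (by norm_num) hη (hd.trans_le g3) hP
  obtain ⟨hxa, hxb⟩ := hx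
  obtain ⟨hya, hyb⟩ := hy
  obtain ⟨hza, hzb⟩ := hz
  rw [abs_le] at hx2 hy2 hz2
  -- the three values
  have ex : ρ x ≤ 1 + 1 / 1000 := by
    rw [rho0_in (by linarith) (by linarith)] at hx2
    have : 1 / ‖x‖ ≤ 2 := by
      rw [div_le_iff₀ (by linarith)]
      linarith
    linarith [hx2.2]
  have ey : 979 / 10000 ≤ ρ y := by
    rw [rho0_in (by linarith) (by linarith)] at hy2
    have : 10989 / 10000 ≤ 1 / ‖y‖ := by
      rw [le_div_iff₀ (by linarith)]
      linarith
    linarith [hy2.1]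
  have ez : ρ z ≤ 1 / 1000 := by
    rw [rho0_out hza.le] at hz2
    linarith [hz2.2]
  have fx : ψ ‖x‖ ≤ 1001 / 1000 := by
    rw [← hx1, Real.sqrt_le_iff]
    constructor <;> norm_num
    linarith
  have fy : 312 / 1000 ≤ ψ ‖y‖ := by
    rw [← hy1]
    apply Real.le_sqrt_of_sq_le
    norm_num
    linarith
  have fz : ψ ‖z‖ ≤ 32 / 1000 := by
    rw [← hz1, Real.sqrt_le_iff]
    constructor <;> norm_num
    linarith
  have fx0 : 0 ≤ ψ ‖x‖ := by rw [← hx1]; exact Real.sqrt_nonneg _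
  have fz0 : 0 ≤ ψ ‖z‖ := by rw [← hz1]; exact Real.sqrt_nonneg _
  -- convexity
  set t : ℝ := (‖z‖ - ‖y‖) / (‖z‖ - ‖x‖) with ht
  have hzx : 0 < ‖z‖ - ‖x‖ := by linarith
  have ht0 : 0 ≤ t := div_nonneg (by linarith) hzx.le
  have ht1 : t ≤ 225 / 1000 := by
    rw [ht, div_le_iff₀ hzx]
    linarith
  have hc := hcv.2 (show ‖x‖ ∈ Ioi (0 : ℝ) from lt_trans (by norm_num) hxa)
    (show ‖z‖ ∈ Ioi (0 : ℝ) from lt_trans (by norm_num) hza) ht0
    (show 0 ≤ 1 - t by linarith) (by ring)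
  have he : t • ‖x‖ + (1 - t) • ‖z‖ = ‖y‖ := by
    have : t * (‖z‖ - ‖x‖) = ‖z‖ - ‖y‖ := div_mul_cancel₀ _ hzx.ne'
    simp only [smul_eq_mul]
    linarith
  rw [he] at hc
  simp only [smul_eq_mul] at hc
  have k1 : t * ψ ‖x‖ ≤ 225 / 1000 * (1001 / 1000) := mul_le_mul ht1 fx fx0 (by norm_num)
  have k2 : (1 - t) * ψ ‖z‖ ≤ 1 * (32 / 1000) :=
    mul_le_mul (by linarith) fz fz0 (by norm_num)
  norm_num at k1 k2
  linarith

end Pool.Agent.X96.TW
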