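import Pool.Agent.X96.TW.Base

/-!
Trial functions: bounded, with compact support and a Lipschitz continuous square root.
-/

set_option autoImplicit false

open MeasureTheory Set Filter Topology
open scoped ContDiff

namespace Pool.Agent.X96.TW

/-- `G` is the weak gradient of `h` -/
def WGrad (h : R3 → ℝ) (G : R3 → R3) : Prop :=
  ∀ φ : R3 → ℝ, ContDiff ℝ ∞ φ → HasCompactSupport φ → ∀ v : R3,
    ∫ x, h x * fderiv ℝ φ x v = - ∫ x, inner ℝ (G x) v * φ x

noncomputable def dl (n : ℕ) : ℝ := 1 / ((n : ℝ) + 1)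

theorem dl_pos (n : ℕ) : 0 < dl n := by unfold dl; positivity

theorem dl_le (n : ℕ) : dl n ≤ 1 := by
  unfold dl
  rw [div_le_one (by positivity)]
  linarith [(Nat.cast_nonneg n : (0 : ℝ) ≤ n)]

noncomputable def rt (n : ℕ) (x : R3) : ℝ := max (1 / max ‖x‖ (dl n) - 1) 0

noncomputable def ht (n : ℕ) (x : R3) : ℝ := √(rt n x + dl n) - √(dl n)

theorem rt_nonneg (n : ℕ) (x : R3) : 0 ≤ rt n x := le_max_right _ _

theorem rt_le {n : ℕ} {x : R3} (hx : 0 < ‖x‖) : rt n x ≤ rho0 x := by
  unfold rt rho0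
  apply max_le_max _ le_rfl
  have : 1 / max ‖x‖ (dl n) ≤ 1 / ‖x‖ := one_div_le_one_div_of_le hx (le_max_left _ _)
  linarith

theorem rt_bd (n : ℕ) (x : R3) : rt n x ≤ 1 / dl n := by
  unfold rt
  have h1 : 1 / max ‖x‖ (dl n) ≤ 1 / dl n := one_div_le_one_div_of_le (dl_pos n) (le_max_right _ _)
  apply max_le
  · linarith
  · exact (one_div_pos.mpr (dl_pos n)).le

theorem rt_out {n : ℕ} {x : R3} (hx : 1 ≤ ‖x‖) : rt n x = 0 := by
  unfold rt
  apply max_eq_right
  rw [max_eq_left ((dl_le n).trans hx), sub_nonpos, div_le_one (by linarith)]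
  exact hx

theorem ht_nonneg (n : ℕ) (x : R3) : 0 ≤ ht n x := by
  unfold ht
  rw [sub_nonneg]
  exact Real.sqrt_le_sqrt (by linarith [rt_nonneg n x])

theorem ht_sq_le (n : ℕ) (x : R3) : ht n x ^ 2 ≤ rt n x := by
  have h1 : √(rt n x + dl n) ≤ √(rt n x) + √(dl n) := by
    have q0 := rt_nonneg n x
    have q1 := Real.sqrt_nonneg (rt n x)
    have q2 := Real.sqrt_nonneg (dl n)
    have q3 := Real.sq_sqrt q0
    have q4 := Real.sq_sqrt (dl_pos n).le
    rw [Real.sqrt_le_iff]
    exact ⟨by positivity, by nlinarith [mul_nonneg q1 q2]⟩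
  have h2 : ht n x ≤ √(rt n x) := by
    unfold ht
    linarith
  calc ht n x ^ 2 ≤ √(rt n x) ^ 2 := pow_le_pow_left₀ (ht_nonneg n x) h2 2
    _ = rt n x := Real.sq_sqrt (rt_nonneg n x)

theorem ht_out {n : ℕ} {x : R3} (hx : 1 ≤ ‖x‖) : ht n x = 0 := by
  unfold ht
  rw [rt_out hx, zero_add, sub_self]

noncomputable def kl (n : ℕ) : ℝ := 1 / (dl n ^ 2 * √(dl n))

theorem kl_pos (n : ℕ) : 0 < kl n := by
  have := dl_pos n
  unfold kl
  positivity

theorem ht_lip (n : ℕ) : LipschitzWith ⟨kl n, (kl_pos n).le⟩ (ht n) := by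
  have hd := dl_pos n
  have hs : 0 < √(dl n) := Real.sqrt_pos.mpr hd
  apply LipschitzWith.of_dist_le_mul
  intro x y
  rw [Real.dist_eq]
  show |ht n x - ht n y| ≤ kl n * dist x y
  have a1 : |max ‖x‖ (dl n) - max ‖y‖ (dl n)| ≤ dist x y := by
    have e1 := abs_max_sub_max_le_abs ‖x‖ ‖y‖ (dl n)
    exact e1.trans ((abs_norm_sub_norm_le x y).trans (le_of_eq (dist_eq_norm x y).symm))
  set mx := max ‖x‖ (dl n) with hmx
  set my := max ‖y‖ (dl n) with hmy
  have hmx1 : dl n ≤ mx := le_max_right _ _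
  have hmy1 : dl n ≤ my := le_max_right _ _
  have hmx0 : 0 < mx := hd.trans_le hmx1
  have hmy0 : 0 < my := hd.trans_le hmy1
  have a2 : |1 / mx - 1 / my| ≤ |mx - my| / dl n ^ 2 := by
    have e1 : 1 / mx - 1 / my = -(mx - my) / (mx * my) := by
      field_simp
      ring
    rw [e1, abs_div, abs_neg, abs_of_pos (mul_pos hmx0 hmy0)]
    apply div_le_div_of_nonneg_left (abs_nonneg _) (by positivity)
    rw [sq]
    exact mul_le_mul hmx1 hmy1 hd.le hmx0.le
  have a3 : |rt n x - rt n y| ≤ |1 / mx - 1 / my| := by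
    unfold rt
    refine (abs_max_sub_max_le_abs _ _ _).trans (le_of_eq ?_)
    congr 1
    ring
  have a4 : |ht n x - ht n y| ≤ |rt n x - rt n y| / √(dl n) := by
    have p1 := rt_nonneg n x
    have p2 := rt_nonneg n y
    have e0 : ht n x - ht n y = √(rt n x + dl n) - √(rt n y + dl n) := by
      unfold ht
      ring
    have s1 : √(dl n) ≤ √(rt n x + dl n) := Real.sqrt_le_sqrt (by linarith)
    have s2 : 0 ≤ √(rt n y + dl n) := Real.sqrt_nonneg _
    have e1 : (√(rt n x + dl n) - √(rt n y + dl n)) * (√(rt n x + dl n) + √(rt n y + dl n))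
        = rt n x - rt n y := by
      have q1 := Real.mul_self_sqrt (show 0 ≤ rt n x + dl n by linarith)
      have q2 := Real.mul_self_sqrt (show 0 ≤ rt n y + dl n by linarith)
      nlinarith
    rw [e0, le_div_iff₀ hs, ← e1, abs_mul,
      abs_of_nonneg (show 0 ≤ √(rt n x + dl n) + √(rt n y + dl n) by linarith)]
    exact mul_le_mul_of_nonneg_left (by linarith) (abs_nonneg _)
  calc |ht n x - ht n y| ≤ |rt n x - rt n y| / √(dl n) := a4
    _ ≤ (dist x y / dl n ^ 2) / √(dl n) := by
        apply div_le_div_of_nonneg_right _ hs.le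
        exact a3.trans (a2.trans (div_le_div_of_nonneg_right a1 (by positivity)))
    _ = kl n * dist x y := by
        unfold kl
        field_simp

theorem ht_supp (n : ℕ) : HasCompactSupport (ht n) := by
  refine HasCompactSupport.intro (isCompact_closedBall (0 : R3) 1) ?_
  intro x hx
  rw [Metric.mem_closedBall, dist_zero_right, not_le] at hx
  exact ht_out hx.le

theorem ht_cont (n : ℕ) : Continuous (ht n) := (ht_lip n).continuous

/-- the trial density -/
noncomputable def rs (n : ℕ) (x : R3) : ℝ := ht n x ^ 2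

theorem rs_nonneg (n : ℕ) (x : R3) : 0 ≤ rs n x := sq_nonneg _

theorem rs_sqrt (n : ℕ) (x : R3) : √(rs n x) = ht n x := Real.sqrt_sq (ht_nonneg n x)

theorem rs_cont (n : ℕ) : Continuous (rs n) := (ht_cont n).pow 2

theorem rs_supp (n : ℕ) : HasCompactSupport (rs n) := by
  refine HasCompactSupport.intro (isCompact_closedBall (0 : R3) 1) ?_
  intro x hx
  rw [Metric.mem_closedBall, dist_zero_right, not_le] at hx
  simp [rs, ht_out hx.le]

theorem rs_int (n : ℕ) : Integrable (rs n) := (rs_cont n).integrable_of_hasCompactSupport (rs_supp n)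

theorem rs_int_sq (n : ℕ) : Integrable (fun x => rs n x ^ 2) := by
  refine ((rs_cont n).pow 2).integrable_of_hasCompactSupport ?_
  refine HasCompactSupport.intro (isCompact_closedBall (0 : R3) 1) ?_
  intro x hx
  rw [Metric.mem_closedBall, dist_zero_right, not_le] at hx
  simp [rs, ht_out hx.le]

theorem rs_le (n : ℕ) : ∀ᵐ x : R3, rs n x ≤ rho0 x := by
  filter_upwards [ae_pos] with x hx
  exact (ht_sq_le n x).trans (rt_le hx)

theorem rs_mass (n : ℕ) : ∫ x, rs n x ≤ ∫ x, rho0 x :=
  integral_mono_ae (rs_int n) int_rho0 (rs_le n)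

theorem rs_bd (n : ℕ) (x : R3) : rs n x ≤ 1 / dl n := (ht_sq_le n x).trans (rt_bd n x)

/-- its gradient -/
noncomputable def gt (n : ℕ) (x : R3) : R3 :=
  (InnerProductSpace.toDual ℝ R3).symm (fderiv ℝ (ht n) x)

theorem gt_inner (n : ℕ) (x v : R3) : inner ℝ (gt n x) v = fderiv ℝ (ht n) x v := by
  unfold gt
  rw [InnerProductSpace.toDual_symm_apply]

theorem gt_norm (n : ℕ) (x : R3) : ‖gt n x‖ = ‖fderiv ℝ (ht n) x‖ := by
  unfold gt
  rw [LinearIsometryEquiv.norm_map]

theorem gt_bd (n : ℕ) (x : R3) : ‖gt n x‖ ≤ kl n := by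
  rw [gt_norm]
  exact norm_fderiv_le_of_lipschitz ℝ (ht_lip n)

theorem gt_meas (n : ℕ) : Measurable (gt n) :=
  (InnerProductSpace.toDual ℝ R3).symm.continuous.measurable.comp (measurable_fderiv ℝ (ht n))

theorem gt_out {n : ℕ} {x : R3} (hx : x ∉ Metric.closedBall (0 : R3) 1) : gt n x = 0 := by
  have h1 : x ∉ tsupport (ht n) := by
    intro h
    apply hx
    have : tsupport (ht n) ⊆ Metric.closedBall (0 : R3) 1 := by
      apply closure_minimal _ Metric.isClosed_closedBall
      intro y hy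
      by_contra h2
      rw [Metric.mem_closedBall, dist_zero_right, not_le] at h2
      exact hy (ht_out h2.le)
    exact this h
  have h2 : fderiv ℝ (ht n) x = 0 := fderiv_of_notMem_tsupport ℝ h1
  unfold gt
  rw [h2, map_zero]

theorem gt_mem (n : ℕ) : MemLp (gt n) 2 := by
  have h1 : MemLp (gt n) 2 (volume.restrict (Metric.closedBall (0 : R3) 1)) := by
    have : IsFiniteMeasure (volume.restrict (Metric.closedBall (0 : R3) 1)) :=
      ⟨by rw [Measure.restrict_apply_univ]; exact measure_closedBall_lt_top⟩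
    exact MemLp.of_bound (gt_meas n).aestronglyMeasurable (kl n)
      (Eventually.of_forall fun x => gt_bd n x)
  have h2 : gt n = (Metric.closedBall (0 : R3) 1).indicator (gt n) := by
    funext x
    by_cases hx : x ∈ Metric.closedBall (0 : R3) 1
    · rw [indicator_of_mem hx]
    · rw [indicator_of_notMem hx, gt_out hx]
  rw [h2]
  exact (memLp_indicator_iff_restrict Metric.isClosed_closedBall.measurableSet).mpr h1

theorem gt_weak (n : ℕ) : WGrad (ht n) (gt n) := by
  intro φ hφ hc v
  obtain ⟨D, hD⟩ := ContDiff.lipschitzWith_of_hasCompactSupport hc hφ (by simp)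
  have h1 := (ht_lip n).integral_lineDeriv_mul_eq (μ := (volume : Measure R3)) hD hc v
  have h2 : ∫ x, lineDeriv ℝ (ht n) x v * φ x = ∫ x, inner ℝ (gt n x) v * φ x := by
    apply integral_congr_ae
    filter_upwards [(ht_lip n).ae_differentiableAt] with x hx
    rw [gt_inner, hx.lineDeriv_eq_fderiv]
  have h3 : ∫ x, lineDeriv ℝ φ x (-v) * ht n x = - ∫ x, ht n x * fderiv ℝ φ x v := by
    rw [← integral_neg]
    apply integral_congr_ae
    refine Eventually.of_forall fun x => ?_
    have hx : DifferentiableAt ℝ φ x := (hφ.differentiable (by simp)) x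
    show lineDeriv ℝ φ x (-v) * ht n x = -(ht n x * fderiv ℝ φ x v)
    rw [hx.lineDeriv_eq_fderiv, map_neg]
    ring
  rw [h2, h3] at h1
  linarith

/-- the self energy is finite -/
theorem rs_self (n : ℕ) : Integrable (fun q : R3 × R3 => rs n q.1 * rs n q.2 / ‖q.1 - q.2‖) := by
  have h1 := Integrable.convolution_integrand (ContinuousLinearMap.mul ℝ ℝ) (rs_int n) int_pot
  have h2 := h1.const_mul (1 / dl n)
  refine Integrable.mono' h2 ?_ ?_
  · have m1 : Measurable fun q : R3 × R3 => rs n q.1 * rs n q.2 * (‖q.1 - q.2‖)⁻¹ := by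
      have := (rs_cont n).measurable
      fun_prop
    exact m1.aestronglyMeasurable
  · refine Eventually.of_forall fun q => ?_
    have p1 := rs_nonneg n q.1
    have p2 := rs_nonneg n q.2
    have e1 : 0 ≤ rs n q.1 * rs n q.2 / ‖q.1 - q.2‖ := by positivity
    rw [Real.norm_eq_abs, abs_of_nonneg e1]
    show rs n q.1 * rs n q.2 / ‖q.1 - q.2‖ ≤ 1 / dl n * (rs n q.2 * pot (q.1 - q.2))
    by_cases h3 : ‖q.1‖ ≤ 1 ∧ ‖q.2‖ ≤ 1
    · have e2 : ‖q.1 - q.2‖ ≤ 2 := (norm_sub_le _ _).trans (by linarith [h3.1, h3.2])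
      have e3 : pot (q.1 - q.2) = 1 / ‖q.1 - q.2‖ := by
        unfold pot
        rw [indicator_of_mem (by exact e2)]
      rw [e3]
      have e4 := rs_bd n q.1
      have e5 : rs n q.1 * rs n q.2 / ‖q.1 - q.2‖ = rs n q.1 * (rs n q.2 * (1 / ‖q.1 - q.2‖)) := by
        ring
      rw [e5]
      exact mul_le_mul_of_nonneg_right e4 (by positivity)
    · have e2 : rs n q.1 * rs n q.2 = 0 := by
        by_cases h4 : ‖q.1‖ ≤ 1
        · have h5 : 1 < ‖q.2‖ := by
            by_contra h6
            exact h3 ⟨h4, not_lt.mp h6⟩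
          have : rs n q.2 = 0 := by
            simp [rs, ht_out h5.le]
          rw [this, mul_zero]
        · have : rs n q.1 = 0 := by
            simp [rs, ht_out (not_le.mp h4).le]
          rw [this, zero_mul]
      rw [e2, zero_div]
      have e6 : 0 ≤ pot (q.1 - q.2) := by
        unfold pot
        by_cases h7 : ‖q.1 - q.2‖ ≤ 2
        · rw [indicator_of_mem (by exact h7)]
          positivity
        · rw [indicator_of_notMem (by exact h7)]
      have := (dl_pos n)
      positivity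

theorem dl_tendsto : Tendsto dl atTop (𝓝 0) := tendsto_one_div_add_atTop_nhds_zero_nat

theorem rs_tendsto : ∀ᵐ x : R3, Tendsto (fun n => rs n x) atTop (𝓝 (rho0 x)) := by
  filter_upwards [ae_pos] with x hx
  have h1 : ∀ᶠ n in atTop, rt n x = rho0 x := by
    filter_upwards [dl_tendsto.eventually_lt_const hx] with n hn
    unfold rt rho0
    rw [max_eq_left hn.le]
  have h2 : Tendsto (fun n => (√(rho0 x + dl n) - √(dl n)) ^ 2) atTop
      (𝓝 ((√(rho0 x + 0) - √0) ^ 2)) := by
    refine (((Real.continuous_sqrt.tendsto _).comp (tendsto_const_nhds.add dl_tendsto)).sub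
      ((Real.continuous_sqrt.tendsto _).comp dl_tendsto)).pow 2
  rw [add_zero, Real.sqrt_zero, sub_zero, Real.sq_sqrt (rho0_nonneg x)] at h2
  refine h2.congr' ?_
  filter_upwards [h1] with n hn
  unfold rs ht
  rw [hn]

theorem E0_tendsto : Tendsto (fun n => E0 (rs n)) atTop (𝓝 (E0 rho0)) := by
  have i2 := int_div (ρ := rho0) (Eventually.of_forall rho0_nonneg) int_rho0 int_rho0_sq
  have t1 : Tendsto (fun n => ∫ x, rs n x ^ 2) atTop (𝓝 (∫ x, rho0 x ^ 2)) := by
    refine tendsto_integral_of_dominated_convergence (fun x => rho0 x ^ 2)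
      (fun n => (rs_int_sq n).aestronglyMeasurable) int_rho0_sq ?_ ?_
    · intro n
      filter_upwards [rs_le n] with x hx
      rw [Real.norm_eq_abs, abs_of_nonneg (sq_nonneg _)]
      exact pow_le_pow_left₀ (rs_nonneg n x) hx 2
    · filter_upwards [rs_tendsto] with x hx
      exact hx.pow 2
  have t2 : Tendsto (fun n => ∫ x, rs n x / ‖x‖) atTop (𝓝 (∫ x, rho0 x / ‖x‖)) := by
    refine tendsto_integral_of_dominated_convergence (fun x => rho0 x / ‖x‖)
      (fun n => (int_div (Eventually.of_forall (rs_nonneg n)) (rs_int n)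
        (rs_int_sq n)).aestronglyMeasurable) i2 ?_ ?_
    · intro n
      filter_upwards [rs_le n] with x hx
      rw [Real.norm_eq_abs, abs_of_nonneg (div_nonneg (rs_nonneg n x) (norm_nonneg x))]
      exact div_le_div_of_nonneg_right hx (norm_nonneg x)
    · filter_upwards [rs_tendsto] with x hx
      exact hx.div_const _
  exact (t1.const_mul _).sub t2

end Pool.Agent.X96.TW
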